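import Pool.Agent.N748.HM.XS2
import Pool.Agent.N748.HM.SUP
import Pool.Agent.N748.HM.ZM1
import Pool.Agent.N748.HM.ZM2
import Pool.Agent.N748.HM.ZM3

set_option autoImplicit false

/-!
# Project HM, job PRM: the choice of the parameters, and the set of the windows in which the
approximations hold
-/

namespace Pool.Agent.V5helper44.HM

open Finset Filter MeasureTheory MonoidAlgebra Topology Complex
open Pool.Agent.N748.GC Pool.Agent.N748.HM

/-- the sums over the blocks are bounded -/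
lemma blk_sum : ∃ c : ℝ, 0 ≤ c ∧ ∀ (z : ℕ) (y : ℝ) (i : ℕ), 1000 ≤ z →
    ∑ p ∈ IB z y i, 1 / (p:ℝ) ≤ c := by
  obtain ⟨C1, hC1, h1⟩ := COS.mer
  have hl4 : 0 ≤ Real.log 4 := Real.log_nonneg (by norm_num)
  refine ⟨Real.log 4 + C1, by linarith, ?_⟩
  intro z y i hz
  set x := be y i with hx
  set x' := be y (i + 1) with hx'
  have hlx : Real.log x = 4 * Real.log x' := by
    rw [hx, hx']; unfold be; rw [Real.log_exp, Real.log_exp]; ring
  set w := max z ⌈x'⌉₊ with hw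
  have hsub : IB z y i ⊆ (Icc w ⌊x⌋₊).filter Nat.Prime := by
    intro p hp
    unfold IB at hp
    rw [mem_filter, mem_filter, mem_Icc] at hp
    obtain ⟨⟨⟨h2, h3⟩, h4, h5, h6⟩, h7⟩ := hp
    rw [mem_filter, mem_Icc]
    exact ⟨⟨max_le h7 (Nat.ceil_le.2 h6.le), h3⟩, h4⟩
  have hle : ∑ p ∈ IB z y i, 1 / (p:ℝ) ≤ ∑ p ∈ (Icc w ⌊x⌋₊).filter Nat.Prime, 1 / (p:ℝ) :=
    sum_le_sum_of_subset_of_nonneg hsub fun p _ _ => by positivity
  refine hle.trans ?_
  have hz1 : 1000 ≤ w := le_trans hz (le_max_left _ _)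
  have hw0 : (1000:ℝ) ≤ w := by exact_mod_cast hz1
  by_cases hwx : (w:ℝ) ≤ x
  · have h2 := (abs_le.1 (h1 w x (by omega) hwx)).2
    have hlw : 1 ≤ Real.log w := by
      rw [Real.le_log_iff_exp_le (by linarith)]
      have := Real.exp_one_lt_d9
      linarith
    have hx'w : x' ≤ w := (Nat.le_ceil _).trans (by exact_mod_cast le_max_right _ _)
    have hlx' : Real.log x' ≤ Real.log w := Real.log_le_log (LEN.be_pos y _) hx'w
    have hlwx : Real.log w ≤ Real.log x := Real.log_le_log (by linarith) hwx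
    have hq : Real.log x / Real.log w ≤ 4 := by
      rw [div_le_iff₀ (by linarith)]; linarith
    have hq0 : 0 < Real.log x / Real.log w := div_pos (by linarith) (by linarith)
    have h3 : Real.log (Real.log x / Real.log w) ≤ Real.log 4 := Real.log_le_log hq0 hq
    have h4 : C1 / Real.log w ≤ C1 := div_le_self hC1.le hlw
    linarith
  · have h0 : (Icc w ⌊x⌋₊).filter Nat.Prime = ∅ := by
      rw [Finset.Icc_eq_empty, filter_empty]
      intro h2
      exact hwx ((Nat.le_floor_iff (LEN.be_pos y i).le).1 h2)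
    rw [h0, sum_empty]
    linarith

/-- the number of the blocks -/
lemma exists_J (y : ℝ) : ∃ J, be y J < 144 ∧ ∀ i < J, 144 ≤ be y i := by
  classical
  have h : ∃ J, be y J < 144 := by
    have h1 : Tendsto (fun i : ℕ => be y i) atTop (𝓝 (Real.exp (Real.log y * 0))) := by
      unfold be
      exact (Real.continuous_exp.tendsto _).comp
        ((tendsto_pow_atTop_nhds_zero_of_lt_one (by norm_num) (by norm_num)).const_mul _)
    rw [mul_zero, Real.exp_zero] at h1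
    exact (h1.eventually_lt_const (by norm_num : (1:ℝ) < 144)).exists
  exact ⟨Nat.find h, Nat.find_spec h, fun i hi => not_lt.1 (Nat.find_min h hi)⟩

/-- the sum over all primes -/
lemma sum_PP : ∃ C1 : ℝ, 0 ≤ C1 ∧ ∀ (z : ℕ) (y : ℝ), 1000 ≤ z → (z:ℝ) ≤ y →
    ∑ p ∈ PP z y, 1 / (p:ℝ) ≤ Real.log (Real.log y) + C1 := by
  obtain ⟨C1, hC1, h1⟩ := COS.mer
  refine ⟨C1, hC1.le, ?_⟩
  intro z y hz hzy
  have h2 := (abs_le.1 (h1 z y (by omega) hzy)).2
  have hz0 : (1000:ℝ) ≤ z := by exact_mod_cast hz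
  have hlz : 1 ≤ Real.log z := by
    rw [Real.le_log_iff_exp_le (by linarith)]
    have := Real.exp_one_lt_d9
    linarith
  have hlzy : Real.log z ≤ Real.log y := Real.log_le_log (by linarith) hzy
  have h3 : Real.log (Real.log y / Real.log z) ≤ Real.log (Real.log y) :=
    Real.log_le_log (div_pos (by linarith) (by linarith)) (div_le_self (by linarith) hlz)
  have h4 : C1 / Real.log z ≤ C1 := div_le_self hC1.le hlz
  unfold PP
  linarith

/-- `L` large -/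
lemma ev_L (x1 C1 : ℝ) : ∃ L0 : ℝ, 1 ≤ L0 ∧ ∀ L : ℝ, L0 ≤ L →
    Real.log x1 + Real.log L + C1 ≤ L := by
  have h1 := Real.isLittleO_log_id_atTop.def (show (0:ℝ) < 1 / 2 by norm_num)
  have h2 : ∀ᶠ L : ℝ in atTop, Real.log x1 + Real.log L + C1 ≤ L := by
    filter_upwards [h1, eventually_ge_atTop (1:ℝ), eventually_ge_atTop (2 * (Real.log x1 + C1))]
      with L h3 h4 h5
    rw [Real.norm_of_nonneg (Real.log_nonneg h4)] at h3
    simp only [id_eq] at h3
    rw [Real.norm_of_nonneg (by linarith)] at h3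
    linarith
  obtain ⟨L0, hL0⟩ := eventually_atTop.1 h2
  exact ⟨max 1 L0, le_max_left _ _, fun L hL => hL0 L ((le_max_right _ _).trans hL)⟩

lemma diff_Ez (z : ℕ) (y : ℝ) (K : ℕ) :
    DifferentiableOn ℂ (fun s => Ez z y K s) {s : ℂ | 1 / 2 < s.re ∧ s.re < 1} := by
  intro s hs
  have hs1 : s ≠ 1 := by
    rintro rfl
    simp at hs
  refine DifferentiableAt.differentiableWithinAt ?_
  unfold Ez
  have h1 : DifferentiableAt ℂ riemannZeta s := differentiableAt_riemannZeta hs1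
  have h2 : DifferentiableAt ℂ (fun s : ℂ => ∏ p ∈ Sm z, (1 - (p:ℂ) ^ (-s))) s := by
    refine DifferentiableAt.fun_finsetProd fun p hp => ?_
    have hp0 : (p:ℂ) ≠ 0 := by exact_mod_cast (LEN.Sm_prime p hp).ne_zero
    exact (differentiableAt_const _).sub ((differentiableAt_id.neg).const_cpow (Or.inl hp0))
  have h3 : DifferentiableAt ℂ (fun s : ℂ => ec s (MB z y K)) s := by
    have e : (fun s : ℂ => ec s (MB z y K)) = fun s : ℂ =>
        ∑ S ∈ ((PP z y).powerset).filter (fun S => S.card ≤ K),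
          ((-1 : ℂ) ^ S.card) * ((∏ p ∈ S, p : ℕ) : ℂ) ^ (-s) := by
      funext s
      unfold MB
      rw [map_sum]
      exact sum_congr rfl fun S _ => MV.ec_single _ _ _
    rw [e]
    refine DifferentiableAt.fun_sum fun S hS => ?_
    have hS0 : ((∏ p ∈ S, p : ℕ) : ℂ) ≠ 0 := by
      rw [mem_filter, mem_powerset] at hS
      have : (∏ p ∈ S, p) ≠ 0 := by
        refine prod_ne_zero_iff.2 fun p hp => ?_
        have h4 := hS.1 hp
        unfold PP at h4
        exact (mem_filter.1 h4).2.ne_zero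
      exact_mod_cast this
    exact ((differentiableAt_id.neg).const_cpow (Or.inl hS0)).const_mul _
  exact ((h1.mul h2).mul h3).sub_const 1

/-- the window lengths -/
lemma win {P : ℝ} (hP : 0 < P) (hP1 : P ≤ 1) : P⁻¹ + 2 ≤ 3 * P⁻¹ := by
  have : 1 ≤ P⁻¹ := (one_le_inv₀ hP).2 hP1
  linarith

lemma sqrt_le' {X : ℝ} (hX4 : 4 ≤ X) : X ^ ((1:ℝ) / 2) + 1 ≤ X := by
  rw [← Real.sqrt_eq_rpow]
  have h1 : Real.sqrt X * Real.sqrt X = X := Real.mul_self_sqrt (by linarith)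
  have h2 : 2 ≤ Real.sqrt X := Real.le_sqrt_of_sq_le (by linarith)
  nlinarith

lemma nine_le {X : ℝ} (hX4 : 4 ≤ X) : X ^ ((9:ℝ) / 10) ≤ 2 * X := by
  have e3 : X ^ ((9:ℝ) / 10) ≤ X ^ (1:ℝ) :=
    Real.rpow_le_rpow_of_exponent_le (by linarith) (by norm_num)
  rw [Real.rpow_one] at e3
  linarith

lemma ceil_le1 {D C1 L r0 r1 : ℝ} (hL : 1 ≤ L) (hC : 0 ≤ C1) (h0 : 0 ≤ r0) (h1 : 0 ≤ r1) :
    (2 * D + 2) * L + 9 * C1 + 1 + r0 + r1 + 1 ≤ ((2 * D + 2) + 9 * C1 + r0 + r1 + 3) * L := by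
  have e1 : 9 * C1 * 1 ≤ 9 * C1 * L := mul_le_mul_of_nonneg_left hL (by positivity)
  have e2 : r0 * 1 ≤ r0 * L := mul_le_mul_of_nonneg_left hL h0
  have e3 : r1 * 1 ≤ r1 * L := mul_le_mul_of_nonneg_left hL h1
  linarith

lemma ceil_le2 {b C a L : ℝ} (hL : 1 ≤ L) (hb : 0 ≤ b) (hC : 0 ≤ C) (ha : 0 ≤ a) :
    b * L + C * (a * L + 2 * L + 1) + 1 ≤ (b + C * (a + 3) + 1) * L := by
  have e1 : C * 1 ≤ C * L := mul_le_mul_of_nonneg_left hL hC
  have e2 : (b + C * (a + 3) + 1) * L = b * L + C * (a * L + 2 * L) + C * L + L := by ring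
  rw [e2]
  linarith

theorem t_PRM (hX1 : S_XS1) : S_PRM := by
  obtain ⟨c, hc, hblk⟩ := blk_sum
  obtain ⟨C0, hC0, hPP⟩ := sum_PP
  obtain ⟨C2, hC2, hSup⟩ := SUP.main
  refine ⟨c, hc, ?_⟩
  intro A D hD z hz R0 x0 η1 C hη1 hC
  obtain ⟨C1, R1, hC1, h1⟩ := hX1 c hc A
  obtain ⟨a', b', ha', hb', δ2, hδ2, hδ2', h2⟩ := XS2.main SUP.main (2 * D + 1) (by linarith)
  obtain ⟨a'', b'', ha'', hb'', h3⟩ := ZM3.main ZM1.main ZM2.main (2 * D + 2) (by linarith)
  obtain ⟨lam'', δ3, hδ3, hδ3', h3⟩ := h3 z (by omega)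
  have hz0 : (1000:ℝ) ≤ z := by exact_mod_cast hz
  have hlz : 0 ≤ Real.log z := Real.log_nonneg (by linarith)
  set x1 : ℝ := a'' + |x0| + Real.log z + 1 with hx1
  have hx1a : a'' ≤ x1 := by have := abs_nonneg x0; rw [hx1]; linarith
  have hx1b : x0 ≤ x1 := by have := le_abs_self x0; rw [hx1]; linarith
  have hx1c : Real.log z ≤ x1 := by have := abs_nonneg x0; rw [hx1]; linarith
  have hx10 : 0 < x1 := by have := abs_nonneg x0; rw [hx1]; linarith
  obtain ⟨L0, hL01, hL0⟩ := ev_L x1 C0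
  -- the constants
  set κ : ℝ := b'' + C * (a' + 3) + 1 with hκ
  have hκ0 : 0 < κ := by rw [hκ]; positivity
  set ρ : ℝ := (2 * D + 2) + 9 * C1 + R0 + R1 + 3 with hρ
  have hρ0 : 0 < ρ := by rw [hρ]; positivity
  set lam : ℝ := 1 + |lam''| + b' * x1 + 100 * (κ * x1) + 9000 * (x1 * ρ) with hlam
  have q1 := mul_pos hb' hx10
  have q2 := mul_pos hκ0 hx10
  have q3 := mul_pos hx10 hρ0
  have q4 := abs_nonneg lam''
  have q5 := le_abs_self lam''
  have hl1 : 1 ≤ lam := by rw [hlam]; linarith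
  have hl2 : lam'' ≤ lam := by rw [hlam]; linarith
  have hl3 : b' * x1 ≤ lam := by rw [hlam]; linarith
  have hl4 : 100 * (κ * x1) ≤ lam := by rw [hlam]; linarith
  have hl5 : 9000 * (x1 * ρ) ≤ lam := by rw [hlam]; linarith
  set δ0 : ℝ := min (min δ2 δ3) (min (Real.exp (-L0)) (min (1 / 16) (η1 ^ 2 / (9 * C2)))) with hδ0
  have hδ0pos : 0 < δ0 := by rw [hδ0]; positivity
  refine ⟨lam, δ0, by linarith, hδ0pos,
    (min_le_right _ _).trans ((min_le_right _ _).trans (min_le_left _ _)), ?_⟩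
  have evlog : ∀ᶠ X : ℝ in atTop, Real.log X ^ D ≤ X ^ ((1:ℝ) / 2) := by
    have h := (isLittleO_log_rpow_rpow_atTop D (show (0:ℝ) < 1 / 2 by norm_num)).def one_pos
    filter_upwards [h, eventually_ge_atTop (1:ℝ)] with X hX hX1
    have hl : 0 ≤ Real.log X := Real.log_nonneg hX1
    rw [Real.norm_of_nonneg (Real.rpow_nonneg hl _),
      Real.norm_of_nonneg (Real.rpow_nonneg (by linarith) _), one_mul] at hX
    exact hX
  filter_upwards [h1, h2, h3, evlog, eventually_ge_atTop (4:ℝ)] with X h1 h2 h3 hXlog hX4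
  intro δ hδ hδδ hlamδ
  have hd2 : δ ≤ δ2 := hδδ.trans ((min_le_left _ _).trans (min_le_left _ _))
  have hd3 : δ ≤ δ3 := hδδ.trans ((min_le_left _ _).trans (min_le_right _ _))
  have hd4 : δ ≤ Real.exp (-L0) := hδδ.trans ((min_le_right _ _).trans (min_le_left _ _))
  have hd5 : δ ≤ 1 / 16 :=
    hδδ.trans ((min_le_right _ _).trans ((min_le_right _ _).trans (min_le_left _ _)))
  have hd6 : δ ≤ η1 ^ 2 / (9 * C2) :=
    hδδ.trans ((min_le_right _ _).trans ((min_le_right _ _).trans (min_le_right _ _)))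
  have hX0 : 0 < X := by linarith
  set L := Real.log (1 / δ) with hL
  have hLδ : Real.log δ = -L := by rw [hL, one_div, Real.log_inv, neg_neg]
  have hLL0 : L0 ≤ L := by
    have := Real.log_le_log hδ hd4
    rw [Real.log_exp, hLδ] at this
    linarith
  have hL1 : 1 ≤ L := hL01.trans hLL0
  have hL2 := hL0 L hLL0
  have hLp : 0 < L := by linarith
  have hLL : L ≤ L ^ 2 := by
    have : L * 1 ≤ L * L := mul_le_mul_of_nonneg_left hL1 hLp.le
    rw [pow_two]; linarith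
  have hL2' : 1 ≤ L ^ 2 := by linarith
  have hlL : lam * L ^ 2 ≤ δ * Real.log X := hlamδ
  have hlL0 : 1 ≤ δ * Real.log X :=
    (one_le_mul_of_one_le_of_one_le hl1 hL2').trans hlL
  have hlogX : 1 / δ ≤ Real.log X := by
    rw [div_le_iff₀ hδ]; linarith
  have hlogX0 : 0 < Real.log X := lt_of_lt_of_le (by positivity) hlogX
  -- the parameters
  set y : ℝ := Real.exp (x1 * L / δ) with hy
  have hly : Real.log y = x1 * L / δ := by rw [hy, Real.log_exp]
  have hδly : δ * Real.log y = x1 * L := by rw [hly]; field_simp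
  have hly0 : 0 < Real.log y := by rw [hly]; positivity
  have hzy : (z:ℝ) ≤ y := by
    rw [hy, ← Real.log_le_iff_le_exp (by linarith), le_div_iff₀ hδ]
    have e1 : Real.log z * δ ≤ Real.log z * 1 := mul_le_mul_of_nonneg_left (by linarith) hlz
    have e2 : x1 * 1 ≤ x1 * L := mul_le_mul_of_nonneg_left hL1 hx10.le
    linarith
  obtain ⟨J, hJ1, hJ2⟩ := exists_J y
  set Rs : ℕ := ⌈(2 * D + 2) * L + 9 * C1⌉₊ + R0 + R1 with hRs
  have hRs1 : (2 * D + 2) * L + 9 * C1 ≤ Rs := by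
    have h4 := Nat.le_ceil ((2 * D + 2) * L + 9 * C1)
    rw [hRs]; push_cast
    have : (0:ℝ) ≤ R0 := Nat.cast_nonneg _
    have : (0:ℝ) ≤ R1 := Nat.cast_nonneg _
    linarith
  have hRs2 : (Rs:ℝ) + 1 ≤ ρ * L := by
    have h4 := Nat.ceil_lt_add_one (show 0 ≤ (2 * D + 2) * L + 9 * C1 by positivity)
    rw [hRs, hρ]; push_cast
    have e2 := ceil_le1 (D := D) hL1 hC1.le (Nat.cast_nonneg R0 : (0:ℝ) ≤ R0)
      (Nat.cast_nonneg R1 : (0:ℝ) ≤ R1)
    linarith
  set K : ℕ := ⌈b'' * L + C * (a' * L + 2 * L + 1)⌉₊ with hK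
  have hK1 : b'' * L + C * (a' * L + 2 * L + 1) ≤ K := Nat.le_ceil _
  have hK2 : (K:ℝ) ≤ κ * L := by
    have h4 := Nat.ceil_lt_add_one (show 0 ≤ b'' * L + C * (a' * L + 2 * L + 1) by positivity)
    rw [← hK] at h4
    exact h4.le.trans (ceil_le2 hL1 hb''.le hC.le ha'.le)
  set Kq : ℕ := ⌈C * (2 * L + 1)⌉₊ with hKq
  have hKq1 : C * (2 * L + 1) ≤ Kq := Nat.le_ceil _
  have hKq2 : (Kq:ℝ) ≤ κ * L := by
    have h4 := Nat.ceil_lt_add_one (show 0 ≤ C * (2 * L + 1) by positivity)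
    rw [← hKq] at h4
    refine h4.le.trans (le_trans ?_ (ceil_le2 hL1 hb''.le hC.le ha'.le))
    have e1 : 0 ≤ b'' * L := by positivity
    have e2 : 0 ≤ C * (a' * L) := by positivity
    have e3 : C * (a' * L + 2 * L + 1) = C * (a' * L) + C * (2 * L + 1) := by ring
    rw [e3]
    linarith
  have hly2 : ∀ q w : ℝ, 0 ≤ q → w ≤ q * L → q * x1 ≤ lam → w * Real.log y ≤ Real.log X := by
    intro q w hq hw hql
    rw [hly, mul_div_assoc', div_le_iff₀ hδ]
    have e1 : w * (x1 * L) ≤ q * L * (x1 * L) := mul_le_mul_of_nonneg_right hw (by positivity)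
    have e2 : q * L * (x1 * L) = (q * x1) * L ^ 2 := by ring
    have e3 : (q * x1) * L ^ 2 ≤ lam * L ^ 2 := mul_le_mul_of_nonneg_right hql (by positivity)
    linarith
  have hKlog : K * Real.log y ≤ Real.log X / 100 := by
    have := hly2 (100 * κ) (100 * K) (by positivity) (by linarith) (by linarith)
    linarith
  have hKqlog : Kq * Real.log y ≤ Real.log X / 100 := by
    have := hly2 (100 * κ) (100 * Kq) (by positivity) (by linarith) (by linarith)
    linarith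
  have hblog : b' * L * Real.log y ≤ Real.log X :=
    hly2 b' (b' * L) hb'.le le_rfl hl3
  have hSP : SP c z Rs y J X := by
    refine ⟨hz, hzy, hJ1, fun i hi => ⟨by linarith [hJ2 i hi], hblk z y i hz⟩, ?_⟩
    have e1 := hly2 (9000 * ρ) (9000 * ((Rs:ℝ) + 1)) (by positivity) (by linarith) (by linarith)
    have e2 : Real.log y * (180 * ((Rs:ℝ) + 1)) ≤ Real.log (2 * (X + 1)) * (1 / 50) := by
      have : Real.log X ≤ Real.log (2 * (X + 1)) := Real.log_le_log hX0 (by linarith)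
      linarith
    rw [Real.rpow_def_of_pos (by linarith)]
    exact Real.exp_le_exp.2 e2
  have hlogP : Real.log (Real.log y) = Real.log x1 + Real.log L + L := by
    rw [hly, Real.log_div (by positivity) hδ.ne', Real.log_mul hx10.ne' (by positivity), hLδ]
    ring
  have hv : ∑ p ∈ PP z y, 1 / (p:ℝ) ≤ 2 * L := by
    have := hPP z y hz hzy
    rw [hlogP] at this
    linarith
  refine ⟨Rs, J, K, Kq, y, a' * L, 2 * L, by omega, hSP, hlogX, ?_, le_rfl, hv, ?_, hKq1, hKqlog, ?_⟩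
  · rw [hδly]
    have : x1 * 1 ≤ x1 * L := mul_le_mul_of_nonneg_left hL1 hx10.le
    linarith
  · have : 0 < b'' * L := by positivity
    linarith
  -- the exceptional set
  set P := δ ^ D with hP
  have hP0 : 0 < P := Real.rpow_pos_of_pos hδ D
  have hP1 : P ≤ 1 := Real.rpow_le_one hδ.le (by linarith) hD.le
  set H : ℝ := δ ^ (-D) with hH
  have hHP : H = P⁻¹ := by rw [hH, Real.rpow_neg hδ.le]
  have hH0 : 0 < H := by rw [hHP]; positivity
  have hHX : H ≤ X ^ ((1:ℝ) / 2) := by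
    refine le_trans ?_ hXlog
    rw [hHP, hP, ← Real.inv_rpow hδ.le]
    refine Real.rpow_le_rpow (by positivity) ?_ hD.le
    rw [← one_div]; exact hlogX
  have hXh : X ^ ((1:ℝ) / 2) + 1 ≤ X := sqrt_le' hX4
  have hXX : X ^ ((9:ℝ) / 10) ≤ 2 * X := nine_le hX4
  have hH2 : H + 2 ≤ 3 * H := by rw [hHP]; exact win hP0 hP1
  have hHPe : H * P = 1 := by rw [hHP]; exact inv_mul_cancel₀ hP0.ne'
  have pD1 : δ ^ (2 * D + 1) = P ^ 2 * δ := by
    rw [Real.rpow_add hδ, Real.rpow_one, hP, mul_comm 2 D, Real.rpow_mul hδ.le, Real.rpow_two]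
  have pD2 : δ ^ (2 * D + 2) = P ^ 2 * δ ^ 2 := by
    rw [Real.rpow_add hδ, hP, mul_comm 2 D, Real.rpow_mul hδ.le, Real.rpow_two, Real.rpow_two]
  -- XS1
  have m1 := h1 z Rs J y (by omega) hSP δ hδ hd5 H hH0.le hHX
  have b1 : C1 * (H + 2) * X * Real.exp (-(Rs:ℝ)) / δ ≤ P * X / 3 := by
    have e1 : Real.exp (-(Rs:ℝ)) ≤ P ^ 2 * δ ^ 2 / (9 * C1) := by
      have e2 : Real.exp (-(Rs:ℝ)) ≤ Real.exp (-((2 * D + 2) * L)) * Real.exp (-(9 * C1)) := by
        rw [← Real.exp_add]; exact Real.exp_le_exp.2 (by linarith)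
      have e3 : Real.exp (-((2 * D + 2) * L)) = P ^ 2 * δ ^ 2 := by
        rw [← pD2, Real.rpow_def_of_pos hδ, hLδ]; congr 1; ring
      have e4 : Real.exp (-(9 * C1)) ≤ (9 * C1)⁻¹ := by
        rw [Real.exp_neg]
        refine inv_anti₀ (by positivity) ?_
        linarith [Real.add_one_le_exp (9 * C1)]
      rw [e3] at e2
      refine e2.trans ?_
      rw [div_eq_mul_inv]
      exact mul_le_mul_of_nonneg_left e4 (by positivity)
    calc C1 * (H + 2) * X * Real.exp (-(Rs:ℝ)) / δ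
        ≤ C1 * (3 * H) * X * (P ^ 2 * δ ^ 2 / (9 * C1)) / δ := by
          gcongr
      _ = (H * P) * (P * X * δ) / 3 := by field_simp; ring
      _ = P * X * δ / 3 := by rw [hHPe, one_mul]
      _ ≤ P * X * 1 / 3 := by gcongr; linarith
      _ = _ := by rw [mul_one]
  -- XS2
  have m2 := h2 δ hδ hd2 z y (by omega) hzy hblog hlogX H hH0.le hHX
  have b2 : (H + 2) * X * δ ^ (2 * D + 1) ≤ P * X / 3 := by
    rw [pD1]
    calc (H + 2) * X * (P ^ 2 * δ) ≤ (3 * H) * X * (P ^ 2 * δ) := by gcongr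
      _ = (H * P) * (3 * (P * X * δ)) := by ring
      _ = 3 * (P * X * δ) := by rw [hHPe, one_mul]
      _ ≤ 3 * (P * X * (1 / 16)) := by gcongr
      _ ≤ _ := by have := mul_pos hP0 hX0; linarith
  -- ZM and SUP
  have hlamL : lam'' * L ≤ δ * Real.log X := by
    have e1 : lam'' * L ≤ lam * L := mul_le_mul_of_nonneg_right hl2 hLp.le
    have e2 : lam * L ≤ lam * L ^ 2 := mul_le_mul_of_nonneg_left hLL (by linarith)
    linarith
  have hms := h3 δ hδ hd3 hlamL y K hzy (by rw [hδly]; gcongr) (by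
    have : 0 < C * (a' * L + 2 * L + 1) := by positivity
    linarith) hKlog
  have m3 := hSup (fun s => Ez z y K s) (diff_Ez z y K) δ (X ^ ((9:ℝ) / 10)) (2 * X)
    (X * δ ^ (2 * D + 2)) hδ hd5 hXX (by positivity) hms H η1 hH0.le hη1
  have b3 : C2 * (H + 2) * (X * δ ^ (2 * D + 2)) / (δ * η1 ^ 2) ≤ P * X / 3 := by
    rw [pD2]
    rw [le_div_iff₀ (by positivity)] at hd6
    calc C2 * (H + 2) * (X * (P ^ 2 * δ ^ 2)) / (δ * η1 ^ 2)
        ≤ C2 * (3 * H) * (X * (P ^ 2 * δ ^ 2)) / (δ * η1 ^ 2) := by gcongr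
      _ = (H * P) * (P * X * (δ * (9 * C2)) / η1 ^ 2) / 3 := by field_simp; ring
      _ = (P * X * (δ * (9 * C2)) / η1 ^ 2) / 3 := by rw [hHPe, one_mul]
      _ ≤ (P * X * η1 ^ 2 / η1 ^ 2) / 3 := by gcongr
      _ = _ := by field_simp
  -- the union
  have hsub : {t : ℝ | X ^ ((9:ℝ) / 10) + 1 ≤ t ∧ t ≤ X ∧ ∃ u : ℝ, t ≤ u ∧ u ≤ t + H ∧
      ¬ (G1 A z Rs y J δ u ∧ ‖ec (1 / 2 + δ + u * I) (xc (PP z y))‖ ≤ a' * L ∧
        ‖Ez z y K (1 / 2 + δ + u * I)‖ ≤ η1)} ⊆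
      ({t : ℝ | X ^ ((9:ℝ) / 10) + 1 ≤ t ∧ t ≤ X ∧ ∃ u : ℝ, t ≤ u ∧ u ≤ t + H ∧
        ¬ G1 A z Rs y J δ u} ∪
      {t : ℝ | X ^ ((9:ℝ) / 10) + 1 ≤ t ∧ t ≤ X ∧ ∃ u : ℝ, t ≤ u ∧ u ≤ t + H ∧
        a' * L < ‖ec (1 / 2 + δ + u * I) (xc (PP z y))‖}) ∪
      {t : ℝ | X ^ ((9:ℝ) / 10) + 1 ≤ t ∧ t + H + 1 ≤ 2 * X ∧ ∃ u : ℝ, t ≤ u ∧ u ≤ t + H ∧
        η1 ≤ ‖Ez z y K (1 / 2 + δ + u * I)‖} := by
    rintro t ⟨ht1, ht2, u, hu1, hu2, hu3⟩
    by_cases g1 : G1 A z Rs y J δ u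
    · by_cases g2 : ‖ec (1 / 2 + δ + u * I) (xc (PP z y))‖ ≤ a' * L
      · right
        refine ⟨ht1, by linarith, u, hu1, hu2, ?_⟩
        by_contra hcon
        exact hu3 ⟨g1, g2, (not_le.1 hcon).le⟩
      · left; right
        exact ⟨ht1, ht2, u, hu1, hu2, not_le.1 g2⟩
    · left; left
      exact ⟨ht1, ht2, u, hu1, hu2, g1⟩
  refine (measure_mono hsub).trans ((measure_union_le _ _).trans
    ((add_le_add ((measure_union_le _ _).trans (add_le_add m1 m2)) m3).trans ?_))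
  have hPX : 0 ≤ P * X / 3 := by positivity
  calc _ ≤ ENNReal.ofReal (P * X / 3) + ENNReal.ofReal (P * X / 3) + ENNReal.ofReal (P * X / 3) :=
        add_le_add (add_le_add (ENNReal.ofReal_le_ofReal b1) (ENNReal.ofReal_le_ofReal b2))
          (ENNReal.ofReal_le_ofReal b3)
    _ = ENNReal.ofReal (P * X) := by
        rw [← ENNReal.ofReal_add hPX hPX, ← ENNReal.ofReal_add (by positivity) hPX]
        congr 1
        ring

end Pool.Agent.V5helper44.HM
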