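import Pool.Agent.N748.HM.XS2
import Pool.Agent.N748.HM.SUP

set_option autoImplicit false

/-!
# Project HM, job XS1: the sums over the blocks in windows
-/

namespace Pool.Agent.V5helper44.HM

open Finset Filter MeasureTheory MonoidAlgebra Topology Complex
open Pool.Agent.N748.GC Pool.Agent.N748.HM

/-- the mean square of a power of the sum over a block -/
lemma ms_blk (z : ℕ) (y : ℝ) (i k : ℕ) (X1 X2 δ : ℝ) (hδ : 0 ≤ δ) (hX : X1 ≤ X2) :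
    ∫ t in X1..X2, ‖ec (1 / 2 + δ + t * I) (xc (IB z y i) ^ k)‖ ^ 2 ≤
      (X2 - X1) * nn δ (xc (IB z y i) ^ k) + 8 * (be y i ^ k) ^ 3 := by
  have hb0 : 0 ≤ be y i := (LEN.be_pos y i).le
  have hQ := LEN.Q_pow (P := Sm z) LEN.Sm_prime hb0 (LEN.Q_xc z y i) k
  have hM : Mo (Sm z) 1 := ⟨one_ne_zero, fun p hp h1 => absurd (Nat.dvd_one.1 h1) hp.one_lt.ne'⟩
  have h := MV.main (Sm z) LEN.Sm_prime (be y i ^ k) X1 X2 δ (xc (IB z y i) ^ k) 1 1
    hQ.1 hδ hX hM hM (Nat.coprime_one_left 1)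
  rw [if_pos rfl] at h
  have hchr : ∀ t : ℝ, chr 1 1 t = 1 := fun t => by unfold chr; simp
  simp_rw [hchr, mul_one] at h
  rw [intervalIntegral.integral_ofReal, ← Complex.ofReal_sub, Complex.norm_real,
    Real.norm_eq_abs] at h
  have h2 := (abs_le.1 h).2
  have h3 : lc1 (xc (IB z y i) ^ k) ^ 2 ≤ (be y i ^ k) ^ 2 :=
    pow_le_pow_left₀ (MV.lc1_nonneg _) hQ.2 2
  have h4 : 0 ≤ be y i ^ k := by positivity
  have h5 : be y i ^ k * lc1 (xc (IB z y i) ^ k) ^ 2 ≤ be y i ^ k * (be y i ^ k) ^ 2 :=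
    mul_le_mul_of_nonneg_left h3 h4
  have h6 : (be y i ^ k) ^ 3 = be y i ^ k * (be y i ^ k) ^ 2 := by ring
  rw [h6]
  push_cast at h2
  linarith

lemma IB_prime {z : ℕ} {y : ℝ} {i p : ℕ} (hp : p ∈ IB z y i) : p.Prime := by
  unfold IB at hp
  rw [mem_filter, mem_filter] at hp
  exact hp.1.2.1

/-- the powers -/
lemma pw1 {A c : ℝ} {k : ℕ} (hA : 0 ≤ A) (hc : 0 ≤ c) (hk : 1 ≤ k)
    (h1 : A ^ 2 * c * Real.exp 2 ≤ k) (h2 : A * Real.exp 1 ≤ k) :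
    (A / k) ^ (2 * k) * (k.factorial * c ^ k) ≤ Real.exp (-(2 * (k:ℝ))) ∧
      (A / k) ^ (2 * k) ≤ Real.exp (-(2 * (k:ℝ))) := by
  have hk0 : (0:ℝ) < k := by exact_mod_cast hk
  have e0 : Real.exp (-(2 * (k:ℝ))) = Real.exp (-2) ^ k := by
    rw [← Real.exp_nat_mul]; congr 1; ring
  constructor
  · have hf : (k.factorial : ℝ) ≤ (k:ℝ) ^ k := by exact_mod_cast Nat.factorial_le_pow k
    calc (A / k) ^ (2 * k) * (k.factorial * c ^ k)
        ≤ (A / k) ^ (2 * k) * ((k:ℝ) ^ k * c ^ k) :=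
          mul_le_mul_of_nonneg_left (mul_le_mul_of_nonneg_right hf (by positivity)) (by positivity)
      _ = (A ^ 2 * c / k) ^ k := by
          rw [pow_mul, ← mul_pow, ← mul_pow]
          congr 1
          field_simp
      _ ≤ Real.exp (-2) ^ k := by
          refine pow_le_pow_left₀ (by positivity) ?_ k
          rw [div_le_iff₀ hk0, Real.exp_neg, inv_mul_eq_div, le_div_iff₀ (Real.exp_pos _)]
          exact h1
      _ = _ := e0.symm
  · rw [e0, pow_mul]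
    refine pow_le_pow_left₀ (by positivity) ?_ k
    have e1 : Real.exp (-2) = Real.exp (-1) ^ 2 := by
      rw [← Real.exp_nat_mul]; norm_num
    rw [e1]
    refine pow_le_pow_left₀ (by positivity) ?_ 2
    rw [div_le_iff₀ hk0, Real.exp_neg, inv_mul_eq_div, le_div_iff₀ (Real.exp_pos _)]
    exact h2

/-- the length of the power -/
lemma len1 {c : ℝ} {z Rs J : ℕ} {y X : ℝ} (h : SP c z Rs y J X) (hX : 4 ≤ X) (i : ℕ) :
    (be y i ^ (RB Rs i)) ^ 3 ≤ X := by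
  have hy : 1 ≤ y := by
    have h1 : (1000:ℝ) ≤ z := by exact_mod_cast h.zz
    linarith [h.zy]
  have hly : 0 ≤ Real.log y := Real.log_nonneg hy
  have e1 : (be y i ^ (RB Rs i)) ^ 3 = Real.exp (Real.log y * ((1 / 4) ^ i * (6 * ((Rs:ℝ) + i)))) := by
    rw [← pow_mul, LEN.be_pow]
    unfold RB
    push_cast
    congr 1
    ring
  have e2 : (1 / 4 : ℝ) ^ i * (45 * ((Rs:ℝ) + i)) ≤ 90 * ((Rs:ℝ) + 1) := by
    have h1 := LEN.geo_le (R := (Rs : ℝ)) (Nat.cast_nonneg _) i (i + 1)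
    rwa [Nat.Ico_succ_singleton, sum_singleton] at h1
  have e3 : (1 / 4 : ℝ) ^ i * (6 * ((Rs:ℝ) + i)) ≤ 180 * ((Rs:ℝ) + 1) := by
    have : (0:ℝ) ≤ Rs := Nat.cast_nonneg _
    linarith
  rw [e1]
  refine (Real.exp_le_exp.2 (mul_le_mul_of_nonneg_left e3 hly)).trans (h.len.trans ?_)
  have e4 : 2 * (X + 1) ≤ X ^ 2 := by nlinarith
  calc (2 * (X + 1)) ^ ((1:ℝ) / 50) ≤ (X ^ 2) ^ ((1:ℝ) / 50) :=
        Real.rpow_le_rpow (by linarith) e4 (by norm_num)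
    _ = X ^ ((1:ℝ) / 25) := by
        rw [← Real.rpow_natCast, ← Real.rpow_mul (by linarith)]
        norm_num
    _ ≤ X ^ (1:ℝ) := Real.rpow_le_rpow_of_exponent_le (by linarith) (by norm_num)
    _ = X := Real.rpow_one X

lemma sum_exp (Rs J : ℕ) :
    ∑ i ∈ range J, Real.exp (-(2 * (RB Rs i : ℝ))) ≤ 2 * Real.exp (-(Rs:ℝ)) := by
  have h1 : ∀ i ∈ range J, Real.exp (-(2 * (RB Rs i : ℝ))) ≤ Real.exp (-(Rs:ℝ)) * (1 / 2) ^ i := by
    intro i _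
    have e1 : Real.exp (-(2 * (RB Rs i : ℝ))) ≤ Real.exp (-(Rs:ℝ)) * Real.exp (-(i:ℝ)) := by
      rw [← Real.exp_add, Real.exp_le_exp]
      unfold RB
      push_cast
      have : (0:ℝ) ≤ Rs := Nat.cast_nonneg _
      have : (0:ℝ) ≤ i := Nat.cast_nonneg _
      linarith
    refine e1.trans (mul_le_mul_of_nonneg_left ?_ (Real.exp_pos _).le)
    have e2 : Real.exp (-(i:ℝ)) = Real.exp (-1) ^ i := by
      rw [← Real.exp_nat_mul]; congr 1; ring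
    rw [e2]
    refine pow_le_pow_left₀ (Real.exp_pos _).le ?_ i
    rw [Real.exp_neg, one_div]
    have h3 : (2:ℝ) ≤ Real.exp 1 := by
      have := Real.add_one_le_exp (1:ℝ)
      linarith
    exact inv_anti₀ two_pos h3
  refine (sum_le_sum h1).trans ?_
  rw [← mul_sum, mul_comm]
  exact mul_le_mul_of_nonneg_right (sum_geometric_two_le J) (Real.exp_pos _).le

theorem t_XS1 : S_XS1 := by
  intro c hc A
  obtain ⟨C0, hC0, hSup⟩ := SUP.main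
  refine ⟨20 * C0, ⌈(A:ℝ) ^ 2 * c * Real.exp 2⌉₊ + ⌈(A:ℝ) * Real.exp 1⌉₊ + 1, by positivity, ?_⟩
  filter_upwards [eventually_ge_atTop (4:ℝ)] with X hX4
  intro z Rs J y hR hSP δ hδ hδ16 H hH hHX
  have hX0 : 0 < X := by linarith
  have hA0 : (0:ℝ) ≤ A := Nat.cast_nonneg _
  have hXX : X ^ ((9:ℝ) / 10) ≤ 2 * X := by
    have e3 : X ^ ((9:ℝ) / 10) ≤ X ^ (1:ℝ) :=
      Real.rpow_le_rpow_of_exponent_le (by linarith) (by norm_num)
    rw [Real.rpow_one] at e3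
    linarith
  have hXh : X ^ ((1:ℝ) / 2) + 1 ≤ X := by
    rw [← Real.sqrt_eq_rpow]
    have h1 : Real.sqrt X * Real.sqrt X = X := Real.mul_self_sqrt hX0.le
    have h2 : 2 ≤ Real.sqrt X := Real.le_sqrt_of_sq_le (by linarith)
    nlinarith
  have hX9 : 0 ≤ X ^ ((9:ℝ) / 10) := by positivity
  have hRs1 : 1 ≤ Rs := by omega
  -- the degrees
  have hk : ∀ i, 1 ≤ RB Rs i ∧ (A:ℝ) ^ 2 * c * Real.exp 2 ≤ (RB Rs i : ℕ) ∧
      (A:ℝ) * Real.exp 1 ≤ (RB Rs i : ℕ) := by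
    intro i
    have h1 : 1 ≤ RB Rs i := by unfold RB; omega
    have h2 : ⌈(A:ℝ) ^ 2 * c * Real.exp 2⌉₊ ≤ RB Rs i := by unfold RB; omega
    have h3 : ⌈(A:ℝ) * Real.exp 1⌉₊ ≤ RB Rs i := by unfold RB; omega
    exact ⟨h1, (Nat.le_ceil _).trans (Nat.cast_le.2 h2), (Nat.le_ceil _).trans (Nat.cast_le.2 h3)⟩
  -- one block
  have hone : ∀ i ∈ range J, volume {t : ℝ | X ^ ((9:ℝ) / 10) + 1 ≤ t ∧ t + H + 1 ≤ 2 * X ∧
      ∃ u : ℝ, t ≤ u ∧ u ≤ t + H ∧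
        1 ≤ ‖((((A:ℝ) / (RB Rs i : ℝ) : ℝ) : ℂ) * ec (1 / 2 + δ + u * I) (xc (IB z y i))) ^
          (RB Rs i)‖} ≤
      ENNReal.ofReal (C0 * (H + 2) * (10 * X * Real.exp (-(2 * (RB Rs i : ℝ)))) / (δ * 1 ^ 2)) := by
    intro i hi
    rw [mem_range] at hi
    obtain ⟨k1, k2, k3⟩ := hk i
    set k := RB Rs i with hkdef
    obtain ⟨p1, p2⟩ := pw1 hA0 hc k1 k2 k3
    refine hSup (fun s => ((((A:ℝ) / (k : ℝ) : ℝ) : ℂ) * ec s (xc (IB z y i))) ^ k) ?_ δ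
      (X ^ ((9:ℝ) / 10)) (2 * X) (10 * X * Real.exp (-(2 * (k : ℝ)))) hδ hδ16 hXX (by positivity)
      ?_ H 1 hH one_pos
    · have h1 := XS2.diff_ec (IB z y i) fun p hp => (IB_prime hp).ne_zero
      exact ((h1.const_mul _).pow k).differentiableOn
    · intro δ' hd1 hd2
      have hδ' : 0 ≤ δ' := by linarith
      have h2 := ms_blk z y i k (X ^ ((9:ℝ) / 10)) (2 * X) δ' hδ' hXX
      have h3 := XS2.nn_pow δ' (IB z y i) (fun p hp => IB_prime hp) k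
      have hV : ∑ p ∈ IB z y i, wd δ' p ≤ c :=
        (sum_le_sum fun p hp => XS2.wd_le hδ' (IB_prime hp).one_lt.le).trans (hSP.bl i hi).2
      have hV0 : 0 ≤ ∑ p ∈ IB z y i, wd δ' p := sum_nonneg fun p _ => BLK.wd_nonneg δ' p
      have h4 : nn δ' (xc (IB z y i) ^ k) ≤ k.factorial * c ^ k :=
        h3.trans (mul_le_mul_of_nonneg_left (pow_le_pow_left₀ hV0 hV k) (by positivity))
      have h5 : ∀ t : ℝ, ‖((((A:ℝ) / (k : ℝ) : ℝ) : ℂ) *
          ec (1 / 2 + δ' + t * I) (xc (IB z y i))) ^ k‖ ^ 2 =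
          ((A:ℝ) / k) ^ (2 * k) * ‖ec (1 / 2 + δ' + t * I) (xc (IB z y i) ^ k)‖ ^ 2 := by
        intro t
        rw [map_pow, norm_pow, norm_pow, norm_mul, Complex.norm_real,
          Real.norm_of_nonneg (by positivity), mul_pow, mul_pow, ← pow_mul, mul_comm k 2]
      simp_rw [h5]
      rw [intervalIntegral.integral_const_mul]
      have h6 : 0 ≤ nn δ' (xc (IB z y i) ^ k) := BLK.nn_nonneg _ _
      have h7 : (2 * X - X ^ ((9:ℝ) / 10)) * nn δ' (xc (IB z y i) ^ k) ≤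
          2 * X * (k.factorial * c ^ k) :=
        mul_le_mul (by linarith) h4 h6 (by positivity)
      have h8 : (be y i ^ k) ^ 3 ≤ X := len1 hSP hX4 i
      have hA2 : 0 ≤ ((A:ℝ) / k) ^ (2 * k) := by positivity
      calc ((A:ℝ) / k) ^ (2 * k) *
            ∫ t in (X ^ ((9:ℝ) / 10))..(2 * X), ‖ec (1 / 2 + δ' + t * I) (xc (IB z y i) ^ k)‖ ^ 2
          ≤ ((A:ℝ) / k) ^ (2 * k) * (2 * X * (k.factorial * c ^ k) + 8 * X) :=
            mul_le_mul_of_nonneg_left (by linarith) hA2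
        _ = 2 * X * (((A:ℝ) / k) ^ (2 * k) * (k.factorial * c ^ k)) +
            8 * X * ((A:ℝ) / k) ^ (2 * k) := by ring
        _ ≤ 2 * X * Real.exp (-(2 * (k:ℝ))) + 8 * X * Real.exp (-(2 * (k:ℝ))) :=
            add_le_add (mul_le_mul_of_nonneg_left p1 (by positivity))
              (mul_le_mul_of_nonneg_left p2 (by positivity))
        _ = _ := by ring
  -- the union
  have hsub : {t : ℝ | X ^ ((9:ℝ) / 10) + 1 ≤ t ∧ t ≤ X ∧ ∃ u : ℝ, t ≤ u ∧ u ≤ t + H ∧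
      ¬ G1 A z Rs y J δ u} ⊆ ⋃ i ∈ range J, {t : ℝ | X ^ ((9:ℝ) / 10) + 1 ≤ t ∧
        t + H + 1 ≤ 2 * X ∧ ∃ u : ℝ, t ≤ u ∧ u ≤ t + H ∧
        1 ≤ ‖((((A:ℝ) / (RB Rs i : ℝ) : ℝ) : ℂ) * ec (1 / 2 + δ + u * I) (xc (IB z y i))) ^
          (RB Rs i)‖} := by
    rintro t ⟨ht1, ht2, u, hu1, hu2, hu3⟩
    unfold G1 at hu3
    push Not at hu3
    obtain ⟨i, hi, hlt⟩ := hu3
    rw [Set.mem_iUnion₂]
    refine ⟨i, mem_range.2 hi, ht1, by linarith, u, hu1, hu2, ?_⟩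
    have hk0 : (0:ℝ) < (RB Rs i : ℝ) := by exact_mod_cast (hk i).1
    rw [norm_pow, norm_mul, Complex.norm_real, Real.norm_of_nonneg (by positivity)]
    refine one_le_pow₀ ?_
    rw [div_mul_eq_mul_div, le_div_iff₀ hk0, one_mul]
    exact hlt.le
  refine (measure_mono hsub).trans ((measure_biUnion_finset_le _ _).trans
    ((sum_le_sum hone).trans ?_))
  rw [← ENNReal.ofReal_sum_of_nonneg fun i _ => by positivity]
  refine ENNReal.ofReal_le_ofReal ?_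
  have e1 : ∀ i ∈ range J, C0 * (H + 2) * (10 * X * Real.exp (-(2 * (RB Rs i : ℝ)))) / (δ * 1 ^ 2) =
      (C0 * (H + 2) * (10 * X) / δ) * Real.exp (-(2 * (RB Rs i : ℝ))) := by
    intro i _
    rw [one_pow, mul_one]
    ring
  rw [sum_congr rfl e1, ← mul_sum]
  calc (C0 * (H + 2) * (10 * X) / δ) * ∑ i ∈ range J, Real.exp (-(2 * (RB Rs i : ℝ)))
      ≤ (C0 * (H + 2) * (10 * X) / δ) * (2 * Real.exp (-(Rs:ℝ))) :=
        mul_le_mul_of_nonneg_left (sum_exp Rs J) (by positivity)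
    _ = _ := by ring

end Pool.Agent.V5helper44.HM
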